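import Pool.Agent.H29.LP.Star
import Pool.Agent.H87.KX.UTL

/-!
# One box: a digit block of a sheet which does not depend on the position is constant

One value of the context. `Y` is the position block of the point, `G` the sheet, `v (G)` a block of
digits of the sheet, `st s G` the state (lower jets) of the sheet at the position `s`, `Nh s G` its
height at `s`. If `v` is nearly independent of `(Y, st Y G, Nh Y G)`, if `Y` is nearly independent
of `G`, and if `Nh s' G = a (st s G) + g (v)`, then the law of `Nh s' G` is nearly invariant under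
the differences of the values of `g`; so either these differences are small or the rows of the
height are full.
-/

set_option autoImplicit false

namespace Pool.KFR

open Finset Real
open Pool.Agent.H49.Ent Pool.Agent.H32.Dense Pool.STK Pool.KVA Pool.KX Pool.KAL Pool.KAL.TI Pool.KAF

variable {Ω : Type} [Fintype Ω]

open Classical in
/-- `X` is independent of the event `o = s` up to `ε`, tested by functions with values in
`[0, 1]`. -/
def Ind {T S : Type} (p : Ω → ℝ) (X : Ω → T) (o : Ω → S) (s : S) (ε : ℝ) : Prop :=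
  ∀ f : T → ℝ, (∀ t, 0 ≤ f t) → (∀ t, f t ≤ 1) →
    |∑ ω, (if o ω = s then p ω * f (X ω) else 0) - law p o s * ∑ ω, p ω * f (X ω)| ≤ ε

theorem ind_of_H {T S : Type} {p : Ω → ℝ} (hp : IsLaw p) (X : Ω → T) (o : Ω → S) (s : S)
    (e : ℝ) (h : H p X + H p o - H p (fun ω => (X ω, o ω)) ≤ e) : Ind p X o s (Real.sqrt e) := by
  classical
  intro f h0 h1
  exact indep_mean p hp X o s f e h0 h1 h

theorem Ind.comp {T T' S : Type} {p : Ω → ℝ} {X : Ω → T} {o : Ω → S} {s : S} {ε : ℝ}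
    (h : Ind p X o s ε) (φ : T → T') : Ind p (fun ω => φ (X ω)) o s ε := by
  intro f h0 h1
  exact h (fun t => f (φ t)) (fun t => h0 _) fun t => h1 _

/-- The transfer from the position of the point to a fixed position. -/
theorem ind_transfer {𝒴 𝒢 S T : Type} {p : Ω → ℝ} (hp : IsLaw p) (Y : Ω → 𝒴) (G : Ω → 𝒢)
    (vv : 𝒢 → S) (F : 𝒴 → 𝒢 → T) (e e' : ℝ)
    (hM : H p (fun ω => (Y ω, F (Y ω) (G ω))) + H p (fun ω => vv (G ω)) -
      H p (fun ω => ((Y ω, F (Y ω) (G ω)), vv (G ω))) ≤ e)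
    (hF : H p G + H p Y - H p (fun ω => (G ω, Y ω)) ≤ e')
    (s : 𝒴) (hs : 0 < law p Y s) (a : S) :
    Ind p (fun ω => F s (G ω)) (fun ω => vv (G ω)) a
      ((2 * Real.sqrt e' + Real.sqrt e) / law p Y s) := by
  classical
  intro f h0 h1
  set q := law p Y s with hq
  set A1 := ∑ ω, (if vv (G ω) = a then p ω * f (F s (G ω)) else 0) with hA1
  set A0 := ∑ ω, p ω * f (F s (G ω)) with hA0
  set B1 := ∑ ω, (if Y ω = s then p ω * (if vv (G ω) = a then f (F s (G ω)) else 0) else 0)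
    with hB1
  set B0 := ∑ ω, (if Y ω = s then p ω * f (F s (G ω)) else 0) with hB0
  set la := law p (fun ω => vv (G ω)) a with hla
  have i1 : |B1 - q * A1| ≤ Real.sqrt e' := by
    have h := indep_mean p hp G Y s (fun g => if vv g = a then f (F s g) else 0) e'
      (fun g => by split_ifs; exacts [h0 _, le_rfl])
      (fun g => by split_ifs; exacts [h1 _, zero_le_one]) hF
    have e1 : ∑ ω, p ω * (if vv (G ω) = a then f (F s (G ω)) else 0) = A1 := by
      refine Finset.sum_congr rfl fun ω _ => ?_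
      split_ifs <;> simp
    rw [e1] at h
    exact h
  have i2 : |B0 - q * A0| ≤ Real.sqrt e' :=
    indep_mean p hp G Y s (fun g => f (F s g)) e' (fun g => h0 _) (fun g => h1 _) hF
  have i3 : |B1 - la * B0| ≤ Real.sqrt e := by
    have h := indep_mean p hp (fun ω => (Y ω, F (Y ω) (G ω))) (fun ω => vv (G ω)) a
      (fun z => if z.1 = s then f z.2 else 0) e
      (fun z => by split_ifs; exacts [h0 _, le_rfl])
      (fun z => by split_ifs; exacts [h1 _, zero_le_one]) hM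
    have e1 : ∑ ω, (if vv (G ω) = a then
        p ω * (if Y ω = s then f (F (Y ω) (G ω)) else 0) else 0) = B1 := by
      refine Finset.sum_congr rfl fun ω _ => ?_
      by_cases c1 : Y ω = s
      · by_cases c2 : vv (G ω) = a
        · simp [c1, c2]
        · simp [c2]
      · by_cases c2 : vv (G ω) = a
        · simp [c1]
        · simp [c1]
    have e2 : ∑ ω, p ω * (if Y ω = s then f (F (Y ω) (G ω)) else 0) = B0 := by
      refine Finset.sum_congr rfl fun ω _ => ?_
      by_cases c1 : Y ω = s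
      · simp [c1]
      · simp [c1]
    simp only at h
    rw [e1, e2] at h
    exact h
  have hla0 : 0 ≤ la := law_nonneg hp.nonneg _ _
  have hla1 : la ≤ 1 := by
    have := law_le_total hp.nonneg (fun ω => vv (G ω)) a
    rwa [hp.sum_one] at this
  rw [le_div_iff₀ hs]
  have e3 : |A1 - la * A0| * q = |q * A1 - la * (q * A0)| := by
    have e5 : q * A1 - la * (q * A0) = q * (A1 - la * A0) := by ring
    rw [e5, abs_mul, abs_of_pos hs, mul_comm]
  rw [e3]
  have i4 : |la * (B0 - q * A0)| ≤ Real.sqrt e' := by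
    rw [abs_mul, abs_of_nonneg hla0]
    calc la * |B0 - q * A0| ≤ 1 * |B0 - q * A0| :=
          mul_le_mul_of_nonneg_right hla1 (abs_nonneg _)
      _ ≤ Real.sqrt e' := by rw [one_mul]; exact i2
  have e4 : q * A1 - la * (q * A0) = -(B1 - q * A1) + (B1 - la * B0) + la * (B0 - q * A0) := by
    ring
  rw [e4]
  refine (abs_add_three _ _ _).trans ?_
  rw [abs_neg]
  linarith

/-- Two-sided independence implies invariance under the differences of the displacements. -/
theorem tiv_of_ind {S U : Type} (d N : ℕ) {p : Ω → ℝ} (hp : IsLaw p) (hN : 0 < N)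
    (X A : Ω → Fin d → ℤ) (V : Ω → U) (o : Ω → S) (g : S → Fin d → ℤ) (B : Set Ω)
    (R ε₁ ε₂ : ℝ) (hR : 0 ≤ R)
    (hB : ∀ ω, ω ∉ B → ∀ i, |((X ω i - A ω i - g (o ω) i : ℤ) : ℝ)| ≤ R) (s s' : S)
    (hX : Ind p (fun ω => (X ω, V ω)) o s ε₁) (hA : Ind p (fun ω => (A ω, V ω)) o s ε₂)
    (hX' : Ind p (fun ω => (X ω, V ω)) o s' ε₁) (hA' : Ind p (fun ω => (A ω, V ω)) o s' ε₂)
    (hs : 0 < law p o s) (hs' : 0 < law p o s') :
    TIV (smp d N p) (smX (N := N) X) (fun w => V w.1) (g s - g s')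
      ((ε₁ + ε₂ + Pr p B) / law p o s + (ε₁ + ε₂ + Pr p B) / law p o s' +
        2 * (d * R / N)) := by
  classical
  -- one label
  have key : ∀ (E : Set ((Fin d → ℤ) × U)) (s : S), 0 < law p o s →
      Ind p (fun ω => (X ω, V ω)) o s ε₁ → Ind p (fun ω => (A ω, V ω)) o s ε₂ →
      |∑ ω, p ω * avg d N {y | (y, V ω) ∈ E} (X ω) -
        ∑ ω, p ω * avg d N {y | (y, V ω) ∈ E} (A ω + g s)| ≤
      (ε₁ + ε₂ + Pr p B) / law p o s + d * R / N := by
    intro E s hs hX hA
    have i1 := hX (fun z => avg d N {y | (y, z.2) ∈ E} z.1) (fun z => avg_nonneg _ _)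
      (fun z => avg_le_one hN _ _)
    have i2 := hA (fun z => avg d N {y | (y, z.2) ∈ E} (z.1 + g s)) (fun z => avg_nonneg _ _)
      (fun z => avg_le_one hN _ _)
    have i3 : |∑ ω, (if o ω = s then p ω * avg d N {y | (y, V ω) ∈ E} (X ω) else 0) -
        ∑ ω, (if o ω = s then p ω * avg d N {y | (y, V ω) ∈ E} (A ω + g s) else 0)| ≤
        Pr p B + law p o s * (d * R / N) := by
      rw [← Finset.sum_sub_distrib]
      refine (Finset.abs_sum_le_sum_abs _ _).trans ?_
      rw [Pr_eq]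
      unfold law
      rw [Finset.sum_mul, ← Finset.sum_add_distrib]
      refine Finset.sum_le_sum fun ω _ => ?_
      have hpω := hp.nonneg ω
      have hRN : 0 ≤ (d : ℝ) * R / N := by positivity
      by_cases ho : o ω = s
      · rw [if_pos ho, if_pos ho, if_pos ho, ← mul_sub, abs_mul, abs_of_nonneg hpω]
        have m1 := avg_nonneg (N := N) {y | (y, V ω) ∈ E} (X ω)
        have m2 := avg_le_one hN {y | (y, V ω) ∈ E} (X ω)
        have m3 := avg_nonneg (N := N) {y | (y, V ω) ∈ E} (A ω + g s)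
        have m4 := avg_le_one hN {y | (y, V ω) ∈ E} (A ω + g s)
        by_cases hb : ω ∈ B
        · rw [if_pos hb]
          have h1 : |avg d N {y | (y, V ω) ∈ E} (X ω) -
              avg d N {y | (y, V ω) ∈ E} (A ω + g s)| ≤ 1 := by
            rw [abs_le]
            constructor <;> linarith
          have h2 := mul_le_mul_of_nonneg_left h1 hpω
          have h3 := mul_nonneg hpω hRN
          linarith
        · rw [if_neg hb]
          have h1 := avg_shift hN {y | (y, V ω) ∈ E} (A ω + g s) (X ω - A ω - g s) R (by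
            intro i
            have := hB ω hb i
            rwa [ho] at this)
          have h2 : A ω + g s + (X ω - A ω - g s) = X ω := by abel
          rw [h2] at h1
          have h3 := mul_le_mul_of_nonneg_left h1 hpω
          linarith
      · rw [if_neg ho, if_neg ho, if_neg ho, sub_zero, abs_zero]
        split_ifs <;> linarith
    simp only at i1 i2
    set Ex := ∑ ω, p ω * avg d N {y | (y, V ω) ∈ E} (X ω) with hEx
    set Ea := ∑ ω, p ω * avg d N {y | (y, V ω) ∈ E} (A ω + g s) with hEa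
    set Lx := ∑ ω, (if o ω = s then p ω * avg d N {y | (y, V ω) ∈ E} (X ω) else 0) with hLx
    set La := ∑ ω, (if o ω = s then p ω * avg d N {y | (y, V ω) ∈ E} (A ω + g s) else 0)
      with hLa
    have i4 : law p o s * |Ex - Ea| ≤
        ε₁ + ε₂ + Pr p B + law p o s * (d * R / N) := by
      rw [← abs_of_pos hs, ← abs_mul, abs_of_pos hs]
      rw [abs_le] at i1 i2 i3 ⊢
      constructor <;> nlinarith [i1.1, i1.2, i2.1, i2.2, i3.1, i3.2]
    rw [← sub_nonneg]
    have i5 : (ε₁ + ε₂ + Pr p B) / law p o s + d * R / N - |Ex - Ea| =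
        (ε₁ + ε₂ + Pr p B + law p o s * (d * R / N) -
          law p o s * |Ex - Ea|) / law p o s := by
      field_simp
    rw [i5]
    exact div_nonneg (by linarith) hs.le
  intro E
  have k1 := key E s hs hX hA
  have k2 := key {z | (z.1 + (g s - g s'), z.2) ∈ E} s' hs' hX' hA'
  have e1 : Pr (smp d N p) {w | (smX (N := N) X w, V w.1) ∈ E} =
      ∑ ω, p ω * avg d N {y | (y, V ω) ∈ E} (X ω) :=
    Pr_smp p X fun ω => {y | (y, V ω) ∈ E}
  have e2 : Pr (smp d N p) {w | (smX (N := N) X w + (g s - g s'), V w.1) ∈ E} =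
      ∑ ω, p ω * avg d N {y | (y, V ω) ∈
        {z : (Fin d → ℤ) × U | (z.1 + (g s - g s'), z.2) ∈ E}} (X ω) :=
    Pr_smp p X fun ω => {y | (y + (g s - g s'), V ω) ∈ E}
  have e3 : ∑ ω, p ω * avg d N {y | (y, V ω) ∈
        {z : (Fin d → ℤ) × U | (z.1 + (g s - g s'), z.2) ∈ E}} (A ω + g s') =
      ∑ ω, p ω * avg d N {y | (y, V ω) ∈ E} (A ω + g s) := by
    refine Finset.sum_congr rfl fun ω _ => ?_
    have h : avg d N {y | (y, V ω) ∈
        {z : (Fin d → ℤ) × U | (z.1 + (g s - g s'), z.2) ∈ E}} (A ω + g s') =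
        avg d N {y | (y, V ω) ∈ E} (A ω + g s) := by
      unfold avg
      have h1 : (univ.filter fun τ : Fin d → Fin N =>
          (fun i => (A ω + g s') i + ((τ i : ℕ) : ℤ)) ∈ {y | (y, V ω) ∈
            {z : (Fin d → ℤ) × U | (z.1 + (g s - g s'), z.2) ∈ E}}) =
          univ.filter fun τ : Fin d → Fin N =>
            (fun i => (A ω + g s) i + ((τ i : ℕ) : ℤ)) ∈ {y | (y, V ω) ∈ E} := by
        refine Finset.filter_congr fun τ _ => ?_
        have h2 : (fun i => (A ω + g s') i + ((τ i : ℕ) : ℤ)) + (g s - g s') =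
            fun i => (A ω + g s) i + ((τ i : ℕ) : ℤ) := by
          funext i
          simp only [Pi.add_apply, Pi.sub_apply]
          ring
        show ((fun i => (A ω + g s') i + ((τ i : ℕ) : ℤ)) + (g s - g s'), V ω) ∈ E ↔
          ((fun i => (A ω + g s) i + ((τ i : ℕ) : ℤ)), V ω) ∈ E
        rw [h2]
      rw [h1]
    rw [h]
  rw [e3] at k2
  rw [e1, e2]
  rw [abs_le] at k1 k2 ⊢
  have h2 : 2 * ((d : ℝ) * R / N) = d * R / N + d * R / N := by ring
  rw [h2]
  constructor <;> linarith [k1.1, k1.2, k2.1, k2.2]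

/-- An invariance of a function of `G` under `p` is an invariance under `p` given `Y = s`, if
`G` and `Y` are nearly independent. -/
theorem tiv_cond {𝒴 𝒢 : Type} (d N : ℕ) {p : Ω → ℝ} (hp : IsLaw p) (hN : 0 < N) (Y : Ω → 𝒴)
    (G : Ω → 𝒢) (X : 𝒢 → Fin d → ℤ) (x : Fin d → ℤ) (s : 𝒴) (ε ε' : ℝ)
    (hs : 0 < law p Y s) (hG : Ind p G Y s ε')
    (hT : TIV (smp d N p) (smX (N := N) fun ω => X (G ω)) (fun _ => ()) x ε) :
    TIV (smp d N (cond p Y s)) (smX (N := N) fun ω => X (G ω)) (fun _ => ()) x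
      (ε + 2 * (ε' / law p Y s)) := by
  classical
  have key : ∀ E : Set (Fin d → ℤ), |∑ ω, cond p Y s ω * avg d N E (X (G ω)) -
      ∑ ω, p ω * avg d N E (X (G ω))| ≤ ε' / law p Y s := by
    intro E
    have i1 := hG (fun g => avg d N E (X g)) (fun g => avg_nonneg _ _) fun g => avg_le_one hN _ _
    have e1 : ∑ ω, cond p Y s ω * avg d N E (X (G ω)) =
        (∑ ω, (if Y ω = s then p ω * avg d N E (X (G ω)) else 0)) / law p Y s := by
      rw [Finset.sum_div]
      refine Finset.sum_congr rfl fun ω _ => ?_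
      unfold Pool.Agent.H49.Ent.cond
      split_ifs
      · ring
      · simp
    rw [e1, le_div_iff₀ hs, ← abs_of_pos hs, ← abs_mul, abs_of_pos hs]
    have e2 : ((∑ ω, (if Y ω = s then p ω * avg d N E (X (G ω)) else 0)) / law p Y s -
        ∑ ω, p ω * avg d N E (X (G ω))) * law p Y s =
        (∑ ω, (if Y ω = s then p ω * avg d N E (X (G ω)) else 0)) -
          law p Y s * ∑ ω, p ω * avg d N E (X (G ω)) := by
      field_simp
    rw [e2]
    exact i1
  intro E
  have h1 := hT E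
  have e1 : ∀ q : Ω → ℝ, Pr (smp d N q) {w | (smX (N := N) (fun ω => X (G ω)) w, ()) ∈ E} =
      ∑ ω, q ω * avg d N {y | (y, ()) ∈ E} (X (G ω)) := fun q =>
    Pr_smp q (fun ω => X (G ω)) fun _ => {y | (y, ()) ∈ E}
  have e2 : ∀ q : Ω → ℝ, Pr (smp d N q) {w | (smX (N := N) (fun ω => X (G ω)) w + x, ()) ∈ E} =
      ∑ ω, q ω * avg d N {y | (y + x, ()) ∈ E} (X (G ω)) := fun q =>
    Pr_smp q (fun ω => X (G ω)) fun _ => {y | (y + x, ()) ∈ E}
  rw [e1, e2] at h1 ⊢
  have k1 := key {y | (y, ()) ∈ E}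
  have k2 := key {y | (y + x, ()) ∈ E}
  rw [abs_le] at h1 k1 k2 ⊢
  have h2 : 2 * (ε' / law p Y s) = ε' / law p Y s + ε' / law p Y s := by ring
  rw [h2]
  constructor <;> linarith [k1.1, k1.2, k2.1, k2.2]

theorem isLaw_cond {𝒴 : Type} {p : Ω → ℝ} (hp : IsLaw p) (Y : Ω → 𝒴) (s : 𝒴)
    (hs : 0 < law p Y s) : IsLaw (cond p Y s) :=
  ⟨fun ω => cond_nonneg hp.nonneg Y s ω, sum_cond p Y hs.ne'⟩

theorem isLaw_smp {d N : ℕ} {p : Ω → ℝ} (hp : IsLaw p) (hN : 0 < N) : IsLaw (smp d N p) := by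
  constructor
  · intro w
    unfold smp
    exact div_nonneg (hp.nonneg _) (by positivity)
  · unfold smp
    rw [Fintype.sum_prod_type]
    have hNr : (0 : ℝ) < N := by exact_mod_cast hN
    have e1 : ∀ ω : Ω, ∑ _t : Fin d → Fin N, p ω / (N : ℝ) ^ d = p ω := by
      intro ω
      rw [Finset.sum_const, Finset.card_univ, Fintype.card_fun, Fintype.card_fin,
        Fintype.card_fin, nsmul_eq_mul]
      push_cast
      field_simp
    simp only [e1]
    exact hp.sum_one

/-- **One box.** -/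
theorem frb {𝒴 𝒢 S T : Type} {p : Ω → ℝ} (hp : IsLaw p) (Y : Ω → 𝒴) (G : Ω → 𝒢) (vv : 𝒢 → S)
    (st : 𝒴 → 𝒢 → T) (Nh : 𝒴 → 𝒢 → ℤ) (e e' ρ₁ ρ R ε : ℝ) (N κ L β : ℕ)
    (hM : H p (fun ω => (Y ω, (st (Y ω) (G ω), Nh (Y ω) (G ω)))) + H p (fun ω => vv (G ω)) -
      H p (fun ω => ((Y ω, (st (Y ω) (G ω), Nh (Y ω) (G ω))), vv (G ω))) ≤ e)
    (hF : H p G + H p Y - H p (fun ω => (G ω, Y ω)) ≤ e')
    (hρ₁ : 0 < ρ₁) (hρ : 0 < ρ) (hN : 0 < N) (hR : 0 ≤ R) (hκ : κ ≤ L)
    (s s' : 𝒴) (hs : ρ₁ ≤ law p Y s) (hs' : ρ₁ ≤ law p Y s')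
    (a : T → ℤ) (g : S → ℤ) (Bd : Set Ω)
    (hD : ∀ ω, ω ∉ Bd → |((Nh s' (G ω) - a (st s (G ω)) - g (vv (G ω)) : ℤ) : ℝ)| ≤ R)
    (hε : 2 * ((2 * ((2 * Real.sqrt e' + Real.sqrt e) / ρ₁) + Pr p Bd) / ρ) + 2 * (R / N) +
      2 * (Real.sqrt e' / ρ₁) ≤ ε)
    (hε2 : 9 * 4 ^ (L - β) * ε ≤ 1)
    (hU : CH (smp 1 N (cond p Y s'))
        (fun w => (Nh s' (G w.1) + ((w.2 0 : ℕ) : ℤ)) / ((2 ^ κ : ℕ) : ℤ))
        (fun w => ((Nh s' (G w.1) + ((w.2 0 : ℕ) : ℤ)) / ((2 ^ L : ℕ) : ℤ), ())) <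
      ((L : ℝ) - κ) * Real.log 2 - 5) :
    ∀ v v', ρ ≤ law p (fun ω => vv (G ω)) v → ρ ≤ law p (fun ω => vv (G ω)) v' →
      |g v - g v'| < 2 ^ β ∨ 2 ^ κ < |g v - g v'| := by
  classical
  intro v v' hv hv'
  by_contra hcon
  rw [not_or, not_lt, not_lt] at hcon
  have hY := lt_of_lt_of_le hρ₁ hs
  have hY' := lt_of_lt_of_le hρ₁ hs'
  have hlv := lt_of_lt_of_le hρ hv
  have hlv' := lt_of_lt_of_le hρ hv'
  set ε₁ := (2 * Real.sqrt e' + Real.sqrt e) / ρ₁ with hε₁
  have mono : ∀ {T' : Type} {X : Ω → T'} {t : S} {y : 𝒴}, ρ₁ ≤ law p Y y →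
      Ind p X (fun ω => vv (G ω)) t ((2 * Real.sqrt e' + Real.sqrt e) / law p Y y) →
      Ind p X (fun ω => vv (G ω)) t ε₁ := by
    intro T' X t y hy h f h0 h1
    refine (h f h0 h1).trans ?_
    rw [hε₁]
    exact div_le_div_of_nonneg_left (by positivity) hρ₁ hy
  -- the height at `s'`
  have iX : ∀ t, Ind p (fun ω => ((fun _ : Fin 1 => Nh s' (G ω)), ())) (fun ω => vv (G ω)) t
      ε₁ := by
    intro t
    have h := ind_transfer hp Y G vv (fun y G => (st y G, Nh y G)) e e' hM hF s' hY' t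
    exact (mono hs' h).comp fun z => ((fun _ : Fin 1 => z.2), ())
  -- the prediction from the state at `s`
  have iA : ∀ t, Ind p (fun ω => ((fun _ : Fin 1 => a (st s (G ω))), ())) (fun ω => vv (G ω)) t
      ε₁ := by
    intro t
    have h := ind_transfer hp Y G vv (fun y G => (st y G, Nh y G)) e e' hM hF s hY t
    exact (mono hs h).comp fun z => ((fun _ : Fin 1 => a z.1), ())
  have hT := tiv_of_ind 1 N hp hN (fun ω _ => Nh s' (G ω)) (fun ω _ => a (st s (G ω)))
    (fun _ => ()) (fun ω => vv (G ω)) (fun t _ => g t) Bd R ε₁ ε₁ hR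
    (fun ω hω _ => hD ω hω) v v' (iX v) (iA v) (iX v') (iA v') hlv hlv'
  have hG : Ind p G Y s' (Real.sqrt e') := ind_of_H hp G Y s' e' hF
  have hT2 := tiv_cond 1 N hp hN Y G (fun g _ => Nh s' g)
    ((fun _ => g v) - fun _ => g v') s' _ (Real.sqrt e') hY' hG hT
  have hsq := Real.sqrt_nonneg e'
  have hPr : 0 ≤ Pr p Bd := by
    unfold Pr
    exact law_nonneg hp.nonneg _ _
  have hε₁0 : 0 ≤ ε₁ := by
    rw [hε₁]
    positivity
  have hle : (ε₁ + ε₁ + Pr p Bd) / law p (fun ω => vv (G ω)) v +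
      (ε₁ + ε₁ + Pr p Bd) / law p (fun ω => vv (G ω)) v' + 2 * (((1 : ℕ) : ℝ) * R / N) +
      2 * (Real.sqrt e' / law p Y s') ≤ ε := by
    have b1 : (ε₁ + ε₁ + Pr p Bd) / law p (fun ω => vv (G ω)) v ≤ (2 * ε₁ + Pr p Bd) / ρ := by
      rw [← two_mul]
      exact div_le_div_of_nonneg_left (by positivity) hρ hv
    have b2 : (ε₁ + ε₁ + Pr p Bd) / law p (fun ω => vv (G ω)) v' ≤ (2 * ε₁ + Pr p Bd) / ρ := by
      rw [← two_mul]
      exact div_le_div_of_nonneg_left (by positivity) hρ hv'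
    have b3 : Real.sqrt e' / law p Y s' ≤ Real.sqrt e' / ρ₁ :=
      div_le_div_of_nonneg_left hsq hρ₁ hs'
    rw [Nat.cast_one, one_mul]
    linarith
  have hT3 : TIV (smp 1 N (cond p Y s')) (fun w => Nh s' (G w.1) + ((w.2 0 : ℕ) : ℤ))
      (fun _ => ()) (g v - g v') ε := by
    have h := Pool.LP.tiv_scalar _ _ _ _ hT2
    intro E
    exact (h E).trans hle
  have hlaw : IsLaw (smp 1 N (cond p Y s')) := isLaw_smp (isLaw_cond hp Y s' hY') hN
  have hε0 : 0 ≤ ε := by
    refine le_trans ?_ hε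
    positivity
  have hfull := full_of_tiv hlaw (fun w => Nh s' (G w.1) + ((w.2 0 : ℕ) : ℤ)) (fun _ => ())
    κ L β (g v - g v') ε hκ hcon.1 hcon.2 hε0 hε2 hT3
  exact absurd hU (not_lt.2 hfull)

end Pool.KFR
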